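import Pool.Agent.T9h94.CZ.Spec2
import Pool.Agent.T9h89.CZ.Triv

/-!
# Piece (F) of `T9h94/CZ/Spec2.lean`: the semigroup principle for a finite set of subgroups
-/

set_option autoImplicit false

namespace Pool.Agent.T9h8.CZ

open Pool.Agent.T9h94.CZ
open Pool.Agent.T9h89.CZ (lift_comp close_mono)

variable {α M : Type} [Group M]

/-- `τ` describes the action of the marking `Z'` on the set `Ω` of subgroups. -/
def Rel (Ω : Set (Subgroup M)) (Z Z' : α → M) (τ : Equiv.Perm Ω) : Prop :=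
  ∀ (K : Ω) (w : FreeGroup α), FreeGroup.lift Z w ∈ (τ K).1 ↔ FreeGroup.lift Z' w ∈ K.1

/-- realised permutations of `Ω`. -/
def RealP (Ω : Set (Subgroup M)) (Z : α → M) (τ : Equiv.Perm Ω) : Prop :=
  ∀ B : Set (FreeGroup α), B.Finite → ∃ Z' : α → M,
    Gen Z' ∧ Close B Z Z' ∧ Differ Z Z' ∧ Rel Ω Z Z' τ

theorem realP_mul [Finite α] (Ω : Set (Subgroup M)) (Z : α → M) (hZ : Gen Z)
    (τ' τ'' : Equiv.Perm Ω) (h' : RealP Ω Z τ') (h'' : RealP Ω Z τ'') :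
    RealP Ω Z (τ' * τ'') := by
  intro B hB
  obtain ⟨Z', hG', hC', ⟨w₁, hD'⟩, hM'⟩ := h' B hB
  have hV : ∀ j, ∃ v : FreeGroup α, FreeGroup.lift Z v = Z' j := fun j => hZ (Z' j)
  choose V hV using hV
  have hU : ∀ j, ∃ u : FreeGroup α, FreeGroup.lift Z' u = Z j := fun j => hG' (Z j)
  choose U hU using hU
  have hZV : ∀ w, FreeGroup.lift Z' w = FreeGroup.lift Z (FreeGroup.lift V w) := by
    intro w
    rw [← lift_comp]
    congr 2
    funext j
    exact (hV j).symm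
  let B'' : Set (FreeGroup α) := (FreeGroup.lift V '' B) ∪ {FreeGroup.lift V w₁} ∪
    Set.range (fun j => (FreeGroup.of j)⁻¹ * FreeGroup.lift V (U j))
  have hB'' : B''.Finite := ((hB.image _).union (Set.finite_singleton _)).union (Set.finite_range _)
  obtain ⟨Z'', hG'', hC'', -, hM''⟩ := h'' B'' hB''
  let Z3 : α → M := fun j => FreeGroup.lift Z'' (V j)
  have hZ3 : ∀ w, FreeGroup.lift Z3 w = FreeGroup.lift Z'' (FreeGroup.lift V w) := fun w =>
    lift_comp Z'' V w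
  refine ⟨Z3, ?_, ?_, ⟨w₁, ?_⟩, ?_⟩
  · -- generation
    have hj : ∀ j, Z'' j = FreeGroup.lift Z3 (U j) := by
      intro j
      have h1 : (FreeGroup.of j)⁻¹ * FreeGroup.lift V (U j) ∈ B'' := Or.inr ⟨j, rfl⟩
      have h2 : FreeGroup.lift Z ((FreeGroup.of j)⁻¹ * FreeGroup.lift V (U j)) = 1 := by
        rw [map_mul, map_inv, ← hZV, hU]
        simp
      have h3 := (hC'' _ h1).2 h2
      rw [map_mul, map_inv, ← hZ3, inv_mul_eq_one] at h3
      simpa using h3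
    intro x
    obtain ⟨w, rfl⟩ := hG'' x
    refine ⟨FreeGroup.lift U w, ?_⟩
    rw [← lift_comp]
    congr 2
    funext j
    exact (hj j).symm
  · intro w hw
    rw [hZ3, hC'' _ (Or.inl (Or.inl ⟨w, hw, rfl⟩)), ← hZV]
    exact hC' w hw
  · intro h
    apply hD'
    rw [hZV, ← hC'' _ (Or.inl (Or.inr rfl)), ← hZ3]
    exact h
  · intro K w
    have h1 : (τ' * τ'') K = τ' (τ'' K) := rfl
    rw [h1, hM' (τ'' K) w, hZV, hM'' K, hZ3]

theorem realP_pow [Finite α] (Ω : Set (Subgroup M)) (Z : α → M) (hZ : Gen Z)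
    (τ : Equiv.Perm Ω) (h : RealP Ω Z τ) (k : ℕ) : RealP Ω Z (τ ^ (k + 1)) := by
  induction k with
  | zero => simpa using h
  | succ k ih =>
    rw [pow_succ']
    exact realP_mul Ω Z hZ _ _ h ih

theorem realP_ex [Finite α] (Ω : Set (Subgroup M)) (hΩ : Ω.Finite) (Z : α → M)
    (hA : Acc Z) (B₀ : Set (FreeGroup α)) (hB₀ : B₀.Finite)
    (hM : ∀ Z' : α → M, Gen Z' → Close B₀ Z Z' →
      ∃ τ : Equiv.Perm Ω, Rel Ω Z Z' τ) :
    ∃ τ, RealP Ω Z τ := by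
  by_contra hno
  push Not at hno
  have hbad : ∀ τ : Equiv.Perm Ω, ∃ B : Set (FreeGroup α), B.Finite ∧
      ¬ ∃ Z' : α → M, Gen Z' ∧ Close B Z Z' ∧ Differ Z Z' ∧ Rel Ω Z Z' τ := by
    intro τ
    have := hno τ
    unfold RealP at this
    push Not at this
    obtain ⟨B, hB, h⟩ := this
    refine ⟨B, hB, ?_⟩
    rintro ⟨Z', h1, h2, h3, h4⟩
    exact h Z' h1 h2 h3 h4
  choose B hB hno' using hbad
  have : Finite Ω := hΩ
  have : Finite (Equiv.Perm Ω) := inferInstance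
  obtain ⟨Z', hG, hC, hD⟩ := hA (B₀ ∪ ⋃ τ, B τ) (hB₀.union (Set.finite_iUnion hB))
  obtain ⟨τ, hτ⟩ := hM Z' hG (close_mono Set.subset_union_left hC)
  exact hno' τ ⟨Z', hG,
    close_mono (fun w hw => Or.inr (Set.mem_iUnion.2 ⟨_, hw⟩)) hC, hD, hτ⟩

theorem sInv : SInv := by
  intro α M _ _ Z hZ hA Ω hΩ hinv B hB
  obtain ⟨B₀, hB₀, hinv⟩ := hinv
  have : Finite Ω := hΩ
  obtain ⟨τ, hτ⟩ := realP_ex Ω hΩ Z hA B₀ hB₀ (by
    intro Z' hG hC
    have h1 : ∀ K : Ω, ∃ K' : Ω, ∀ w, FreeGroup.lift Z w ∈ K'.1 ↔ FreeGroup.lift Z' w ∈ K.1 := by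
      intro K
      obtain ⟨K', h2, h3⟩ := hinv Z' hG hC K.1 K.2
      exact ⟨⟨K', h2⟩, h3⟩
    choose T hT using h1
    have hinj : Function.Injective T := by
      intro K L hKL
      apply Subtype.ext
      ext x
      obtain ⟨w, rfl⟩ := hG x
      rw [← hT K w, ← hT L w, hKL]
    exact ⟨Equiv.ofBijective T (Finite.injective_iff_bijective.1 hinj), fun K w => hT K w⟩)
  have h1 : RealP Ω Z 1 := by
    have h2 := realP_pow Ω Z hZ τ hτ (orderOf τ - 1)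
    have h3 : orderOf τ - 1 + 1 = orderOf τ := Nat.sub_add_cancel (orderOf_pos τ)
    rwa [h3, pow_orderOf_eq_one] at h2
  obtain ⟨Z', hG, hC, hD, hR⟩ := h1 B hB
  exact ⟨Z', hG, hC, hD, fun K hK w => hR ⟨K, hK⟩ w⟩

end Pool.Agent.T9h8.CZ
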