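import Pool.Agent.T9h94.CZ.Spec

/-!
# (C) Smith normal form of the centre in `Hom (G, ℤ)` (helper8)
-/

set_option autoImplicit false

namespace Pool.Agent.T9h8.CZ

open Module Pool.Agent.T9h94.CZ

variable (G : Type) [Group G]

/-- the homomorphisms to `ℤ` -/
abbrev Hm : Type := Additive (G →* Multiplicative ℤ)

variable {G}

/-- the value -/
def ev (f : Hm G) (x : G) : ℤ := Multiplicative.toAdd ((Additive.toMul f) x)

lemma ev_add (f g : Hm G) (x : G) : ev (f + g) x = ev f x + ev g x := rfl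

lemma ev_zero (x : G) : ev (0 : Hm G) x = 0 := rfl

lemma ev_smul (n : ℤ) (f : Hm G) (x : G) : ev (n • f) x = n * ev f x := by
  unfold ev
  rw [toMul_zsmul, MonoidHom.zpow_apply, toAdd_zpow, smul_eq_mul]

lemma ev_mul (f : Hm G) (x y : G) : ev f (x * y) = ev f x + ev f y := by
  unfold ev
  rw [map_mul, toAdd_mul]

lemma ev_one (f : Hm G) : ev f 1 = 0 := by
  unfold ev
  rw [map_one, toAdd_one]

/-- evaluation is linear -/
def evL (x : G) : Hm G →ₗ[ℤ] ℤ where
  toFun f := ev f x
  map_add' f g := ev_add f g x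
  map_smul' n f := by
    rw [ev_smul]
    rfl

lemma free_fin [Group.FG G] : Module.Free ℤ (Hm G) ∧ Module.Finite ℤ (Hm G) := by
  obtain ⟨S, hS⟩ := Group.fg_iff.1 (inferInstance : Group.FG G)
  have : Finite S := hS.2
  let Φ : Hm G →ₗ[ℤ] (S → ℤ) := LinearMap.pi fun x => evL (x : G)
  have hinj : Function.Injective Φ := by
    intro f g hfg
    have h1 : Set.EqOn (Additive.toMul f : G →* Multiplicative ℤ)
        (Additive.toMul g : G →* Multiplicative ℤ) S := by
      intro x hx
      have h2 := congr_fun hfg ⟨x, hx⟩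
      change ev f x = ev g x at h2
      unfold ev at h2
      exact Multiplicative.toAdd.injective h2
    have h3 := MonoidHom.eq_of_eqOn_dense hS.1 h1
    exact Additive.toMul.injective h3
  have e : Hm G ≃ₗ[ℤ] LinearMap.range Φ := LinearEquiv.ofInjective Φ hinj
  exact ⟨Module.Free.of_equiv e.symm, Module.Finite.equiv e.symm⟩

theorem sSmith : SSmith := by
  intro G _ _
  obtain ⟨h1, h2⟩ := free_fin (G := G)
  set s := finrank ℤ (Hm G) with hs
  let ψ : Basis (Fin s) ℤ (Hm G) := Module.finBasis ℤ (Hm G)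
  let π : G → (Fin s → ℤ) := fun x i => ev (ψ i) x
  have hπm : ∀ x y, π (x * y) = π x + π y := fun x y => funext fun i => ev_mul _ x y
  have hπ1 : π 1 = 0 := funext fun i => ev_one _
  have hπi : ∀ x, π x⁻¹ = -π x := by
    intro x
    have h := hπm x x⁻¹
    rw [mul_inv_cancel, hπ1] at h
    exact (neg_eq_of_add_eq_zero_right h.symm).symm
  let PA : AddSubgroup (Fin s → ℤ) :=
    { carrier := {v | ∃ z ∈ Subgroup.center G, π z = v}
      add_mem' := by
        rintro _ _ ⟨z, hz, rfl⟩ ⟨w, hw, rfl⟩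
        exact ⟨z * w, mul_mem hz hw, hπm z w⟩
      zero_mem' := ⟨1, one_mem _, hπ1⟩
      neg_mem' := by
        rintro _ ⟨z, hz, rfl⟩
        exact ⟨z⁻¹, inv_mem hz, hπi z⟩ }
  let P : Submodule ℤ (Fin s → ℤ) := AddSubgroup.toIntSubmodule PA
  have hP : ∀ v : Fin s → ℤ, v ∈ P ↔ ∃ z ∈ Subgroup.center G, π z = v := fun v => Iff.rfl
  obtain ⟨n, snf⟩ := Submodule.smithNormalForm (Pi.basisFun ℤ (Fin s)) P
  let χ : Fin s → (G →* Multiplicative ℤ) := fun i =>
    { toFun := fun x => Multiplicative.ofAdd (snf.bM.coord i (π x))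
      map_one' := by
        rw [hπ1, map_zero]
        rfl
      map_mul' := fun x y => by
        rw [hπm, map_add]
        rfl }
  have hχ : ∀ i x, Multiplicative.toAdd (χ i x) = snf.bM.coord i (π x) := fun i x => rfl
  classical
  have hk : ∀ j : Fin n, ∃ z ∈ Subgroup.center G, π z = (snf.bN j : Fin s → ℤ) := fun j =>
    (hP _).1 (snf.bN j).2
  choose kk hk1 hk2 using hk
  have ha : ∀ j : Fin n, snf.a j ≠ 0 := by
    intro j h0
    have h3 := snf.snf j
    rw [h0, zero_smul] at h3
    have h4 : snf.bN j = 0 := Subtype.ext h3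
    exact snf.bN.ne_zero j h4
  refine ⟨s, χ, Finset.univ.image snf.f,
    fun i => if h : ∃ j, snf.f j = i then snf.a h.choose else 1,
    fun i => if h : ∃ j, snf.f j = i then kk h.choose else 1, ?_, ?_, ?_, ?_, ?_⟩
  · intro f
    let c : Fin s →₀ ℤ := ψ.repr (Additive.ofMul f)
    let L : (Fin s → ℤ) →ₗ[ℤ] ℤ := ∑ i, c i • LinearMap.proj i
    refine ⟨fun i => L (snf.bM i), fun x => ?_⟩
    have h3 : Multiplicative.toAdd (f x) = L (π x) := by
      have h4 : Additive.ofMul f = ∑ i, c i • ψ i := (ψ.sum_repr (Additive.ofMul f)).symm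
      have h5 : Multiplicative.toAdd (f x) = evL x (Additive.ofMul f) := rfl
      rw [h5, h4, map_sum]
      simp only [L, map_smul, LinearMap.sum_apply, LinearMap.smul_apply, LinearMap.proj_apply]
      rfl
    rw [h3]
    conv_lhs => rw [← snf.bM.sum_repr (π x)]
    rw [map_sum]
    refine Finset.sum_congr rfl fun i _ => ?_
    rw [map_smul, smul_eq_mul, hχ, Basis.coord_apply, mul_comm]
  · intro i
    by_cases h : ∃ j, snf.f j = i
    · simp only [dif_pos h]
      exact ha _
    · simp only [dif_neg h]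
      exact one_ne_zero
  · intro i
    by_cases h : ∃ j, snf.f j = i
    · simp only [dif_pos h]
      exact hk1 _
    · simp only [dif_neg h]
      exact one_mem _
  · intro i hi j
    rw [Finset.mem_image] at hi
    obtain ⟨j₀, -, hj₀⟩ := hi
    have h : ∃ j, snf.f j = i := ⟨j₀, hj₀⟩
    simp only [dif_pos h]
    rw [hχ, hk2, snf.snf, map_smul, Basis.coord_apply, h.choose_spec, Basis.repr_self,
      Finsupp.single_apply]
    by_cases hj : j = i
    · simp [hj]
    · simp [hj, Ne.symm hj]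
  · intro z hz i hi
    rw [hχ, Basis.coord_apply]
    have h3 : i ∉ Set.range snf.f := by
      rintro ⟨j, hj⟩
      exact hi (Finset.mem_image.2 ⟨j, Finset.mem_univ _, hj⟩)
    exact snf.repr_eq_zero_of_notMem_range ⟨π z, (hP _).2 ⟨z, hz, rfl⟩⟩ h3

end Pool.Agent.T9h8.CZ
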